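import Pool.Agent.helper8.GD.Spec
import Pool.Agent.helper85.SQ.RAW
import Pool.Agent.helper9.Tors.Divs

/-! # gd: BV3, Bombieri-Vinogradov, large conductors -/

set_option autoImplicit false

namespace GD

open Finset ArithmeticFunction Filter

theorem BV3_ev (K : ℝ) (k : ℕ) (δ : ℝ) (hδ : 0 < δ) :
    ∀ᶠ X : ℕ in atTop, K * (1 + Real.log X) ^ k ≤ (X : ℝ) ^ δ := by
  have h1 : (fun x : ℝ => (1 + Real.log x) ^ k) =o[atTop] fun x : ℝ => x ^ δ := by
    have h2 : (fun x : ℝ => Real.log x ^ k) =o[atTop] fun x : ℝ => x ^ δ :=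
      isLittleO_log_rpow_rpow_atTop (k : ℝ) hδ |>.congr_left (fun x => by simp)
    have h3 : (fun x : ℝ => (1 + Real.log x) ^ k) =O[atTop] fun x : ℝ => Real.log x ^ k := by
      refine Asymptotics.IsBigO.pow ?_ k
      refine Asymptotics.IsBigO.of_bound 2 ?_
      filter_upwards [Real.tendsto_log_atTop.eventually_ge_atTop 1] with x hx
      rw [Real.norm_of_nonneg (by linarith), Real.norm_of_nonneg (by linarith)]
      linarith
    exact h3.trans_isLittleO h2
  have h4 : ∀ᶠ x : ℝ in atTop, K * (1 + Real.log x) ^ k ≤ x ^ δ := by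
    have h5 := h1.bound (c := 1 / (|K| + 1)) (by positivity)
    filter_upwards [h5, eventually_ge_atTop 1] with x hx hx1
    have hl : 0 ≤ Real.log x := Real.log_nonneg hx1
    rw [Real.norm_of_nonneg (by positivity), Real.norm_of_nonneg (by positivity)] at hx
    have h6 : 0 ≤ (1 + Real.log x) ^ k := by positivity
    calc K * (1 + Real.log x) ^ k ≤ (|K| + 1) * (1 + Real.log x) ^ k := by
          refine mul_le_mul_of_nonneg_right ?_ h6
          have := le_abs_self K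
          linarith
      _ ≤ (|K| + 1) * (1 / (|K| + 1) * x ^ δ) := by
          refine mul_le_mul_of_nonneg_left hx (by positivity)
      _ = x ^ δ := by field_simp
  exact tendsto_natCast_atTop_atTop.eventually h4

theorem BV3_kp_zero (R m c n : ℕ) (hm : 0 < m) (h : m < R) : kp R m c n = 0 := by
  classical
  unfold kp
  have : (Finset.univ.filter fun χ : DirichletCharacter ℂ m => R < χ.conductor ∧ χ.conductor ≤ 2 * R) =
      ∅ := by
    rw [Finset.filter_eq_empty_iff]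
    rintro χ - ⟨h1, -⟩
    have := Nat.le_of_dvd hm χ.conductor_dvd_level
    omega
  rw [Finset.sum_congr (s₂ := ∅) (by convert this) (fun _ _ => rfl)]
  simp

/-- BV3 -/
theorem BV3 (h1 : BV1_stmt) (h2 : BV2_stmt) : BV3_stmt := by
  intro ε hε hε2 A
  obtain ⟨C, hC, h1⟩ := h1
  obtain ⟨C₀, hC₀, hdiv⟩ := Pool.Agent.helper9.Tors.divisor_bound (ε / 8) (by positivity)
  refine ⟨A + 7, ?_⟩
  have ev1 := BV3_ev (20 * (C₀ + 1)) (A + 1) (11 * ε / 8) (by positivity)
  have ev2 := BV3_ev (576 * C) (A + 6) (ε / 8) (by positivity)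
  have ev3 := BV3_ev (288 * C) (A + 6) ε hε
  have ev4 : ∀ᶠ X : ℕ in atTop, 72 * C * 2 ^ 6 + 1 ≤ Real.log X :=
    (Real.tendsto_log_atTop.comp tendsto_natCast_atTop_atTop).eventually_ge_atTop _
  have ev5 := BV3_ev 2 0 (ε / 4) (by positivity)
  obtain ⟨X₀, hX₀⟩ := eventually_atTop.1 (ev1.and (ev2.and (ev3.and (ev4.and
    (ev5.and (eventually_ge_atTop 3))))))
  refine ⟨X₀, fun X hX t ht c _ R hR => ?_⟩
  obtain ⟨e1, e2, e3, e4, e5, e6⟩ := hX₀ X hX
  set L := Real.log X with hL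
  set Q := ⌊(X : ℝ) ^ (1 / 2 - ε)⌋₊ with hQ
  have hL1 : 1 ≤ L := by
    have : 0 ≤ 72 * C * 2 ^ 6 := by positivity
    linarith
  have hX0 : (0 : ℝ) < X := by
    have : 0 < X := by omega
    exact_mod_cast this
  have hX1 : (1 : ℝ) ≤ X := by
    have : 1 ≤ X := by omega
    exact_mod_cast this
  have hLpos : 0 < L := by linarith
  have hrhs : 0 ≤ (X : ℝ) / L ^ A := by positivity
  have hR1 : 1 ≤ R := by
    have : (1 : ℝ) ≤ R := (one_le_pow₀ hL1).trans hR
    exact_mod_cast this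
  rcases Nat.eq_zero_or_pos t with rfl | ht0
  · simpa using hrhs
  by_cases hQR : Q < R
  · rw [sum_eq_zero]
    · exact hrhs
    · intro m hm
      rw [mem_Icc] at hm
      rw [sum_eq_zero, abs_zero]
      intro n _
      rw [BV3_kp_zero R m _ n (by omega) (by omega), mul_zero]
  push Not at hQR
  have hQX : (Q : ℝ) ≤ (X : ℝ) ^ (1 / 2 - ε) := Nat.floor_le (by positivity)
  have hRX : (R : ℝ) ≤ (X : ℝ) ^ (1 / 2 - ε) := (by exact_mod_cast hQR : (R : ℝ) ≤ Q).trans hQX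
  have hQ1 : 1 ≤ Q := hR1.trans hQR
  have hQXX : (X : ℝ) ^ (1 / 2 - ε) ≤ X := by
    calc (X : ℝ) ^ (1 / 2 - ε) ≤ (X : ℝ) ^ (1 : ℝ) := Real.rpow_le_rpow_of_exponent_le hX1 (by linarith)
      _ = X := Real.rpow_one _
  set U := ⌊(X : ℝ) ^ (ε / 4)⌋₊ with hU
  have hUX : (U : ℝ) ≤ (X : ℝ) ^ (ε / 4) := Nat.floor_le (by positivity)
  have hU2 : (X : ℝ) ^ (ε / 4) ≤ 2 * U := by
    have h3 : (X : ℝ) ^ (ε / 4) < U + 1 := Nat.lt_floor_add_one _
    have h4 : (2 : ℝ) ≤ (X : ℝ) ^ (ε / 4) := by simpa using e5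
    have h5 : (1 : ℝ) < U + 1 := by linarith
    have h6 : 0 < U := by
      by_contra hc
      have : U = 0 := by omega
      rw [this] at h5
      simp at h5
    have h7 : (1 : ℝ) ≤ U := by exact_mod_cast h6
    linarith
  have hU1 : 1 ≤ U := by
    rw [hU, Nat.one_le_floor_iff]
    have h4 : (2 : ℝ) ≤ (X : ℝ) ^ (ε / 4) := by simpa using e5
    linarith
  have hRr : (1 : ℝ) ≤ R := by exact_mod_cast hR1
  have hQr : (1 : ℝ) ≤ Q := by exact_mod_cast hQ1
  have hlogQ : Real.log Q ≤ L := Real.log_le_log (by linarith) (hQX.trans hQXX)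
  have hlogQ0 : 0 ≤ Real.log Q := Real.log_nonneg hQr
  have htX : (t : ℝ) ≤ X := by exact_mod_cast ht
  have ht1 : (1 : ℝ) ≤ t := by exact_mod_cast ht0
  have hlogt : Real.log t ≤ L := Real.log_le_log (by linarith) htX
  have hlogt0 : 0 ≤ Real.log t := Real.log_nonneg ht1
  set T : ℝ := 2 * R * (C₀ * (X : ℝ) ^ (ε / 8)) with hT
  have key := Pool.Agent.helper85.SQ.raw (Icc 1 Q) (fun m n => kp R m (c m) n)
    (C * (1 + Real.log Q) / R) (4 * (R : ℝ) ^ 2) T (by positivity) (by positivity)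
    (fun α β M₁ M₂ N₁ N₂ hM hN => h1 Q R c α β M₁ M₂ N₁ N₂ hQ1 hR1 hM hN)
    (fun m hm n => (h2 R m (c m) hR1 (mem_Icc.1 hm).1).1 n)
    (fun m hm d y => by
      refine ((h2 R m (c m) hR1 (mem_Icc.1 hm).1).2 d y).trans ?_
      rw [hT]
      have hm1 : m ≠ 0 := by
        have := (mem_Icc.1 hm).1
        omega
      have hmQ : (m : ℝ) ≤ X := by
        have : (m : ℝ) ≤ Q := by exact_mod_cast (mem_Icc.1 hm).2
        exact this.trans (hQX.trans hQXX)
      refine mul_le_mul_of_nonneg_left ?_ (by positivity)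
      refine (hdiv m hm1).trans ?_
      refine mul_le_mul_of_nonneg_left ?_ hC₀.le
      exact Real.rpow_le_rpow (by positivity) hmQ (by positivity))
    t U hU1 ht0
  refine key.trans ?_
  -- the first term
  have b1 : (#(Icc 1 Q) : ℝ) * ((2 + 4 * T) * (U : ℝ) ^ 2 * (1 + Real.log t)) ≤
      1 / 2 * (X / L ^ A) := by
    have c1 : (#(Icc 1 Q) : ℝ) ≤ (X : ℝ) ^ (1 / 2 - ε) := by
      rw [Nat.card_Icc]
      simpa using hQX
    have c2 : 2 + 4 * T ≤ 10 * (C₀ + 1) * ((X : ℝ) ^ (1 / 2 - ε) * (X : ℝ) ^ (ε / 8)) := by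
      rw [hT]
      have d1 : (1 : ℝ) ≤ (X : ℝ) ^ (ε / 8) := Real.one_le_rpow hX1 (by positivity)
      have d2 : (1 : ℝ) ≤ (X : ℝ) ^ (1 / 2 - ε) := Real.one_le_rpow hX1 (by linarith)
      have d3 : (1 : ℝ) ≤ (X : ℝ) ^ (1 / 2 - ε) * (X : ℝ) ^ (ε / 8) := by nlinarith
      have d4 : (R : ℝ) * (X : ℝ) ^ (ε / 8) ≤ (X : ℝ) ^ (1 / 2 - ε) * (X : ℝ) ^ (ε / 8) :=
        mul_le_mul_of_nonneg_right hRX (by positivity)
      have d5 : C₀ * ((R : ℝ) * (X : ℝ) ^ (ε / 8)) ≤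
        C₀ * ((X : ℝ) ^ (1 / 2 - ε) * (X : ℝ) ^ (ε / 8)) := mul_le_mul_of_nonneg_left d4 hC₀.le
      nlinarith
    have c3 : (U : ℝ) ^ 2 ≤ (X : ℝ) ^ (ε / 2) := by
      calc (U : ℝ) ^ 2 ≤ ((X : ℝ) ^ (ε / 4)) ^ 2 := pow_le_pow_left₀ (by positivity) hUX 2
        _ = (X : ℝ) ^ (ε / 2) := by
          rw [← Real.rpow_natCast, ← Real.rpow_mul hX0.le]
          congr 1
          push_cast
          ring
    have c4 : 1 + Real.log t ≤ 1 + L := by linarith
    calc (#(Icc 1 Q) : ℝ) * ((2 + 4 * T) * (U : ℝ) ^ 2 * (1 + Real.log t))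
        ≤ (X : ℝ) ^ (1 / 2 - ε) * ((10 * (C₀ + 1) * ((X : ℝ) ^ (1 / 2 - ε) * (X : ℝ) ^ (ε / 8))) *
          (X : ℝ) ^ (ε / 2) * (1 + L)) := by
          have : 0 ≤ 2 + 4 * T := by rw [hT]; positivity
          gcongr
      _ = 10 * (C₀ + 1) * (1 + L) * ((X : ℝ) ^ (1 / 2 - ε) * (X : ℝ) ^ (1 / 2 - ε) *
          (X : ℝ) ^ (ε / 8) * (X : ℝ) ^ (ε / 2)) := by ring
      _ = 10 * (C₀ + 1) * (1 + L) * (X : ℝ) ^ (1 - 11 * ε / 8) := by
          rw [← Real.rpow_add hX0, ← Real.rpow_add hX0, ← Real.rpow_add hX0]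
          congr 2
          ring
      _ ≤ 1 / 2 * (X / L ^ A) := by
          have d1 : (X : ℝ) ^ (1 - 11 * ε / 8) = X / (X : ℝ) ^ (11 * ε / 8) := by
            rw [Real.rpow_sub hX0, Real.rpow_one]
          rw [d1]
          have d2 : 0 < (X : ℝ) ^ (11 * ε / 8) := by positivity
          have d3 : L ^ A ≤ (1 + L) ^ A := pow_le_pow_left₀ hLpos.le (by linarith) A
          rw [mul_div_assoc', div_le_iff₀ d2]
          have d4 : 1 / 2 * (X / L ^ A) * (X : ℝ) ^ (11 * ε / 8) =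
            X * (1 / 2 * (X : ℝ) ^ (11 * ε / 8) / L ^ A) := by ring
          rw [d4, mul_comm _ (X : ℝ)]
          refine mul_le_mul_of_nonneg_left ?_ hX0.le
          rw [le_div_iff₀ (by positivity)]
          have d5 : 20 * (C₀ + 1) * (1 + L) ^ (A + 1) = 20 * (C₀ + 1) * (1 + L) * (1 + L) ^ A := by
            ring
          rw [d5] at e1
          have d6 : 20 * (C₀ + 1) * (1 + L) * L ^ A ≤ 20 * (C₀ + 1) * (1 + L) * (1 + L) ^ A :=
            mul_le_mul_of_nonneg_left d3 (by positivity)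
          linarith
  have b2 : 12 * (1 + Real.log t) ^ 5 * (C * (1 + Real.log Q) / R * ((t : ℝ) +
      2 * √(4 * (R : ℝ) ^ 2) * t / √U + 4 * (R : ℝ) ^ 2 * √t)) ≤ 1 / 2 * (X / L ^ A) := by
    have s1 : √(4 * (R : ℝ) ^ 2) = 2 * R := by
      rw [show 4 * (R : ℝ) ^ 2 = (2 * R) ^ 2 by ring]
      exact Real.sqrt_sq (by positivity)
    rw [s1]
    have hR0 : (R : ℝ) ≠ 0 := by positivity
    have hsU : 0 < √(U : ℝ) := Real.sqrt_pos.2 (by exact_mod_cast hU1)
    have s2 : C * (1 + Real.log Q) / R * ((t : ℝ) + 2 * (2 * R) * t / √U + 4 * (R : ℝ) ^ 2 * √t) =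
        C * (1 + Real.log Q) * ((t : ℝ) / R + 4 * (t / √U) + 4 * (R * √t)) := by
      field_simp
      ring
    rw [s2]
    have f1 : (t : ℝ) / R ≤ X / L ^ (A + 7) := by
      have : 0 < L ^ (A + 7) := by positivity
      gcongr
    have f2 : (t : ℝ) / √U ≤ 2 * (X / (X : ℝ) ^ (ε / 8)) := by
      have g1 : (X : ℝ) ^ (ε / 8) ≤ 2 * √U := by
        have g2 : (X : ℝ) ^ (ε / 8) = √((X : ℝ) ^ (ε / 4)) := by
          rw [Real.sqrt_eq_rpow, ← Real.rpow_mul hX0.le]
          congr 1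
          ring
        rw [g2]
        calc √((X : ℝ) ^ (ε / 4)) ≤ √(4 * U) := Real.sqrt_le_sqrt (by
              have : (0 : ℝ) ≤ U := by positivity
              linarith)
          _ = 2 * √U := by
            rw [Real.sqrt_mul (by norm_num)]
            congr 1
            rw [show (4 : ℝ) = 2 ^ 2 by norm_num]
            exact Real.sqrt_sq (by norm_num)
      have g3 : 0 < (X : ℝ) ^ (ε / 8) := by positivity
      rw [div_le_iff₀ hsU]
      calc (t : ℝ) ≤ X := htX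
        _ = X / (X : ℝ) ^ (ε / 8) * (X : ℝ) ^ (ε / 8) := by field_simp
        _ ≤ X / (X : ℝ) ^ (ε / 8) * (2 * √U) := by gcongr
        _ = _ := by ring
    have f3 : (R : ℝ) * √t ≤ X / (X : ℝ) ^ ε := by
      have g1 : √(t : ℝ) ≤ (X : ℝ) ^ (1 / 2 : ℝ) := by
        rw [← Real.sqrt_eq_rpow]
        exact Real.sqrt_le_sqrt htX
      calc (R : ℝ) * √t ≤ (X : ℝ) ^ (1 / 2 - ε) * (X : ℝ) ^ (1 / 2 : ℝ) := by gcongr
        _ = X / (X : ℝ) ^ ε := by
          rw [← Real.rpow_add hX0, show 1 / 2 - ε + 1 / 2 = 1 - ε by ring, Real.rpow_sub hX0,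
            Real.rpow_one]
    have f4 : 12 * (1 + Real.log t) ^ 5 ≤ 12 * (1 + L) ^ 5 := by gcongr
    have f5 : C * (1 + Real.log Q) ≤ C * (1 + L) := by gcongr
    calc 12 * (1 + Real.log t) ^ 5 * (C * (1 + Real.log Q) * ((t : ℝ) / R + 4 * (t / √U) +
          4 * (R * √t)))
        ≤ 12 * (1 + L) ^ 5 * (C * (1 + L) * (X / L ^ (A + 7) + 4 * (2 * (X / (X : ℝ) ^ (ε / 8))) +
          4 * (X / (X : ℝ) ^ ε))) := by gcongr
      _ = (X / L ^ A) * (12 * C * (1 + L) ^ 6 / L ^ 7) +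
          X * (96 * C * (1 + L) ^ 6 / (X : ℝ) ^ (ε / 8)) +
          X * (48 * C * (1 + L) ^ 6 / (X : ℝ) ^ ε) := by
          rw [pow_add L A 7]
          field_simp
          ring
      _ ≤ (X / L ^ A) * (1 / 6) + X * (1 / 6 / L ^ A) + X * (1 / 6 / L ^ A) := by
          have p1 : 12 * C * (1 + L) ^ 6 / L ^ 7 ≤ 1 / 6 := by
            rw [div_le_iff₀ (by positivity)]
            have q1 : (1 + L) ^ 6 ≤ (2 * L) ^ 6 := by gcongr; linarith
            have q2 : (2 * L) ^ 6 = 2 ^ 6 * L ^ 6 := by ring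
            have q3 : 72 * C * (2 ^ 6 * L ^ 6) ≤ L * L ^ 6 := by
              have : 72 * C * 2 ^ 6 ≤ L := by linarith
              calc 72 * C * (2 ^ 6 * L ^ 6) = (72 * C * 2 ^ 6) * L ^ 6 := by ring
                _ ≤ L * L ^ 6 := by gcongr
            have q4 : 72 * C * (1 + L) ^ 6 ≤ 72 * C * (2 ^ 6 * L ^ 6) := by
              rw [← q2]; gcongr
            have q5 : L * L ^ 6 = L ^ 7 := by ring
            rw [q5] at q3
            linarith
          have d3 : L ^ A ≤ (1 + L) ^ A := pow_le_pow_left₀ hLpos.le (by linarith) A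
          have p2 : 96 * C * (1 + L) ^ 6 / (X : ℝ) ^ (ε / 8) ≤ 1 / 6 / L ^ A := by
            rw [div_le_div_iff₀ (by positivity) (by positivity)]
            have q1 : 576 * C * (1 + L) ^ (A + 6) = 576 * C * (1 + L) ^ 6 * (1 + L) ^ A := by ring
            rw [q1] at e2
            have q2 : 576 * C * (1 + L) ^ 6 * L ^ A ≤ 576 * C * (1 + L) ^ 6 * (1 + L) ^ A :=
              mul_le_mul_of_nonneg_left d3 (by positivity)
            linarith
          have p3 : 48 * C * (1 + L) ^ 6 / (X : ℝ) ^ ε ≤ 1 / 6 / L ^ A := by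
            rw [div_le_div_iff₀ (by positivity) (by positivity)]
            have q1 : 288 * C * (1 + L) ^ (A + 6) = 288 * C * (1 + L) ^ 6 * (1 + L) ^ A := by ring
            rw [q1] at e3
            have q2 : 288 * C * (1 + L) ^ 6 * L ^ A ≤ 288 * C * (1 + L) ^ 6 * (1 + L) ^ A :=
              mul_le_mul_of_nonneg_left d3 (by positivity)
            linarith
          gcongr
      _ = 1 / 2 * (X / L ^ A) := by ring
  linarith

end GD

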