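import Pool.Agent.helper36.UT.Final
import Pool.Agent.helper35.GD.GSM
import Pool.Agent.helper5.GD.GNG
import Pool.Agent.helper31.GD.GLV
import Pool.Agent.helper97.GD.GSH
import Pool.Agent.helper5.GD.GNF
import Pool.Agent.helper64.GD.GLE
import Pool.Agent.helper50.GD.GMN
import Pool.Agent.helper98.GD.GLO
import Pool.Agent.helper5.GD.GVC
import Pool.Agent.helper72.GD.GBS
import Pool.Agent.helper83.GD.GBT
import Pool.Agent.helper5.GD.GPO
import Pool.Agent.helper54.GD.GTM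
import Pool.Agent.helper42.GD.GPF
import Pool.Agent.helper70.GD.GEN
import Pool.Agent.helper60.GD.GCP
import Pool.Agent.helper52.GD.GHB
import Pool.Agent.helper48.GD.GFI

/-!
# Project GD, block A: assembly
-/

set_option autoImplicit false

namespace Pool.Agent.GD

open Pool.Agent.UnivT

theorem A_GSM : GSM_stmt := GSM
theorem A_GNG : GNG_stmt := GNG
theorem A_GLV : GLV_stmt := GLV A_GSM
theorem A_GSH : GSH_stmt := GSH A_GSM A_GNG A_GLV
theorem A_GNF : GNF_stmt := GNF A_GSM A_GNG A_GLV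
theorem A_GLE : GLE_stmt := GLE A_GSM A_GNG A_GLV A_GNF
theorem A_GMN : GMN_stmt := GMN
theorem A_GLO : GLO_stmt := GLO pf_EPR pf_BTM
theorem A_GVC : GVC_stmt := GVC A_GSM A_GNG A_GLV pf_EPC
theorem A_GBS : GBS_stmt := GBS pf_BWS
theorem A_GBT : GBT_stmt := GBT A_GSM A_GNG A_GLV A_GSH A_GMN A_GLO A_GVC A_GBS pf_BWS
theorem A_GPO : GPO_stmt := GPO A_GSM A_GNG A_GLV A_GSH A_GMN A_GLO A_GVC pf_PSP
theorem A_GTM : GTM_stmt := GTM A_GSM A_GLV A_GSH A_GLE A_GBT A_GPO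
theorem A_GPF : GPF_stmt := GPF
theorem A_GEN : GEN_stmt := GEN A_GPF A_GSM A_GLV
theorem A_GCP : GCP_stmt := GCP A_GTM A_GEN
theorem A_GHB : GHB_stmt := GHB
theorem A_GFI : GFI_stmt := GFI A_GCP A_GHB

end Pool.Agent.GD
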