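import Pool.Agent.helper97.GD.All
import Pool.Agent.helper28.GD.BLV
import Pool.Agent.helper79.GD.BSH
import Pool.Agent.helper9.GD.BLT
import Pool.Agent.helper2.GD.BLN
import Pool.Agent.helper35.GD.BQT
import Pool.Agent.helper57.GD.BEN
import Pool.Agent.helper48.GD.BGC
import Pool.Agent.helper42.GD.BCP

/-!
# Project GD, block B: assembly
-/

set_option autoImplicit false

namespace Pool.Agent.GD

theorem A_BLV : BLV_stmt := BLV A_GSM
theorem A_BSH : BSH_stmt := BSH A_GSM A_GNG A_BLV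
theorem A_BLT : BLT_stmt := BLT A_GSM A_GNG A_BLV
theorem A_BLN : BLN_stmt := BLN A_GSM A_GNG A_BLV A_BLT
theorem A_BQT : BQT_stmt := BQT A_GSM A_GNG A_BLV A_BSH A_BLT
theorem A_BEN : BEN_stmt := BEN A_GSM A_BLV
theorem A_BGC : BGC_stmt := BGC A_GSM A_BLV A_BEN
theorem A_BCP : BCP_stmt := BCP A_GSM A_GNG A_BLV A_BSH A_BLN A_BQT A_BEN A_BGC

end Pool.Agent.GD
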