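import Pool.Agent.helper36.UT.Spec
import Pool.Agent.helper8.SF.Final

/-!
# Project GD (MP_37e5fa_nt, MP_a70bdc_nt): formulas with advice and common factors with Fermat numbers

Page with the complete proof: /team-store/GD_proof_helper97.md. Rows `gd:X`: prove `X_stmt` in `Pool/Agent/<seat>/GD/X.lean`,
`import Pool.Agent.helper97.GD.Spec`, namespace `Pool.Agent.GD`, auxiliary lemmas prefixed `X_`.

All functions are functions of the place `k : ℕ`; `eventually` means for `U`-almost all `k` (`U` an ultrafilter); `N k → ∞` is the scale.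
`Sm`: small, that is `o(N)` bits. `Ng`: negligible, that is `o(N)`. `Fr`: at least `N / j` for some constant `j`.
-/

set_option autoImplicit false

open Filter FirstOrder FirstOrder.Language

namespace Pool.Agent.GD

open Pool.Agent.UnivT

/-! ## Definitions -/

/-- `f` has `o(N)` bits -/
def Sm (U : Ultrafilter ℕ) (N : ℕ → ℕ) (f : ℕ → ℤ) : Prop :=
  ∀ j : ℕ, ∀ᶠ k in (U : Filter ℕ), |f k| ^ j ≤ 2 ^ N k

/-- `e = o(N)` -/
def Ng (U : Ultrafilter ℕ) (N : ℕ → ℕ) (e : ℕ → ℤ) : Prop :=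
  ∀ j : ℕ, ∀ᶠ k in (U : Filter ℕ), (j : ℤ) * |e k| ≤ N k

/-- `e ≥ N / j` for some constant `j` -/
def Fr (U : Ultrafilter ℕ) (N : ℕ → ℕ) (e : ℕ → ℤ) : Prop :=
  ∃ j : ℕ, ∀ᶠ k in (U : Filter ℕ), (N k : ℤ) ≤ j * e k

/-- the value of a sum of terms `c * 2 ^ e` -/
def sv (l : List ((ℕ → ℤ) × (ℕ → ℤ))) (k : ℕ) : ℤ := (l.map fun x => x.1 k * 2 ^ (x.2 k).toNat).sum

/-- the levels -/
def Lv (U : Ultrafilter ℕ) (N : ℕ → ℕ) : ℕ → (ℕ → ℤ) → Prop
  | 0, f => Sm U N f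
  | n + 1, f => ∃ (D : ℕ) (l : List ((ℕ → ℤ) × (ℕ → ℤ))), 0 < D ∧ (∀ x ∈ l, Sm U N x.1 ∧ Lv U N n x.2) ∧
      ∀ᶠ k in (U : Filter ℕ), (D : ℤ) * f k = sv l k

/-- representation `D f = c + ∑ c_i 2 ^ (e_i)` with small `c, c_i` and `e_i` of level `n` -/
def St (U : Ultrafilter ℕ) (N : ℕ → ℕ) (n D : ℕ) (c : ℕ → ℤ) (l : List ((ℕ → ℤ) × (ℕ → ℤ))) (f : ℕ → ℤ) : Prop :=
  0 < D ∧ Sm U N c ∧ (∀ x ∈ l, Sm U N x.1 ∧ Lv U N n x.2) ∧ ∀ᶠ k in (U : Filter ℕ), (D : ℤ) * f k = c k + sv l k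

/-- normal form: the exponents decrease, they and their differences are at least `N / j`; the coefficients are not zero -/
def NFm (U : Ultrafilter ℕ) (N : ℕ → ℕ) (l : List ((ℕ → ℤ) × (ℕ → ℤ))) : Prop :=
  l.Pairwise (fun x y => Fr U N fun k => x.2 k - y.2 k) ∧
    ∀ x ∈ l, Fr U N x.2 ∧ ∀ᶠ k in (U : Filter ℕ), x.1 k ≠ 0

/-- number of binary digits of `|x|` -/
def len (x : ℤ) : ℤ := ((Nat.digits 2 x.natAbs).length : ℕ)

/-! ## Small lemmas proved here -/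

theorem sv_nil (k : ℕ) : sv [] k = 0 := rfl

theorem sv_cons (x : (ℕ → ℤ) × (ℕ → ℤ)) (l : List ((ℕ → ℤ) × (ℕ → ℤ))) (k : ℕ) :
    sv (x :: l) k = x.1 k * 2 ^ (x.2 k).toNat + sv l k := by
  simp [sv]

theorem sv_append (l m : List ((ℕ → ℤ) × (ℕ → ℤ))) (k : ℕ) : sv (l ++ m) k = sv l k + sv m k := by
  simp [sv]

/-! ## Rows: calculus of small and negligible functions -/

/-- **GSM** small functions (short-medium). `N → ∞`. (2) `|f + g|^j ≤ (2 max(|f|,|g|))^j`: use the hypotheses for `2 j` (`max^(2j) ≤ 2^N`) and `2^(2j) ≤ 2^N`, multiply, take square roots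
(or `x^2 ≤ y^2`); the product in the same way (`|f|^(2j) |g|^(2j) ≤ (2^N)^2`). (3) `C (|f| + 1)` is small by (1), (2). (4) `Ng e`: `2^(e.toNat j) ≤ 2^N` as `j |e| ≤ N`; `|e| ≤ 2^|e|`
(or `|e| ≤ N` and `N^j ≤ 2^N` eventually). (5) if `L` is the length of `f` then `2^(L-1) ≤ |f|` (`Nat.digits_len`, `Nat.pow_log_le_self`), so `2^((L-1) 2j) ≤ |f|^(2j) ≤ 2^N`,
`2 j (L - 1) ≤ N`, and `2 j ≤ N` eventually. (6) `Fr e` with constant `j > 0`: `N ≤ j e`; `(2 C |f|)^(j+1) ≤ 2^N ≤ 2^(j e)`-type inequality: `C |f|` is small, so `(2 C |f|)^j ≤ 2^N ≤ (2^e)^j`, so `2 C |f| ≤ 2^e`; for `f = 0` trivial, `1 ≤ 2^e`. -/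
def GSM_stmt : Prop := ∀ (U : Ultrafilter ℕ) (N : ℕ → ℕ), Tendsto N (U : Filter ℕ) atTop →
  (∀ c : ℤ, Sm U N fun _ => c) ∧
  (∀ f g, Sm U N f → Sm U N g → Sm U N (fun k => f k + g k) ∧ Sm U N (fun k => f k - g k) ∧
    Sm U N (fun k => f k * g k)) ∧
  (∀ (f g : ℕ → ℤ) (C : ℕ), Sm U N f → (∀ᶠ k in (U : Filter ℕ), |g k| ≤ C * (|f k| + 1)) → Sm U N g) ∧
  (∀ e, Ng U N e → Sm U N e ∧ Sm U N (fun k => 2 ^ (e k).toNat)) ∧
  (∀ f, Sm U N f → Ng U N (fun k => len (f k))) ∧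
  ∀ (f e : ℕ → ℤ) (C : ℕ), Sm U N f → Fr U N e → ∀ᶠ k in (U : Filter ℕ), C * |f k| < 2 ^ (e k).toNat

/-- **GNG** negligible functions and far functions (short-medium). (1) `j |c| ≤ N` eventually. (2) triangle inequality with `2 j`. (3) `C (|e| + 1)`: with `2 j C`. (4) trichotomy: if `e` is not negligible, there is `j` such that
NOT eventually `j |e| ≤ N`, so (ultrafilter, `Ultrafilter.eventually_not`) eventually `N < j |e|`; and eventually `0 ≤ e` or eventually `e ≤ 0` (`Ultrafilter.eventually_or`, `em`). (5) `N ≤ j e` and `2 j |e'| ≤ N` give `N ≤ 2 j (e ± e')`. (6) add (common `j`: `j e ≤ j'' e` for `e ≥ 0`, `e ≥ 0` follows from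
`N ≤ j e`, `N > 0`). (7) `N ≤ j e`, `2 j |c| ≤ N`, `0 < N`: `2 j |c| ≤ j e`, `|c| < e` (`e > 0`). (8) `Fr` is monotone. -/
def GNG_stmt : Prop := ∀ (U : Ultrafilter ℕ) (N : ℕ → ℕ), Tendsto N (U : Filter ℕ) atTop →
  (∀ c : ℤ, Ng U N fun _ => c) ∧
  (∀ e e', Ng U N e → Ng U N e' → Ng U N (fun k => e k + e' k) ∧ Ng U N (fun k => e k - e' k)) ∧
  (∀ (e e' : ℕ → ℤ) (C : ℕ), Ng U N e → (∀ᶠ k in (U : Filter ℕ), |e' k| ≤ C * (|e k| + 1)) → Ng U N e') ∧
  (∀ e, Ng U N e ∨ Fr U N e ∨ Fr U N (fun k => - e k)) ∧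
  (∀ e e', Fr U N e → Ng U N e' → Fr U N (fun k => e k + e' k) ∧ Fr U N (fun k => e k - e' k)) ∧
  (∀ e e', Fr U N e → Fr U N e' → Fr U N (fun k => e k + e' k)) ∧
  (∀ (e c : ℕ → ℤ), Fr U N e → Ng U N c → ∀ᶠ k in (U : Filter ℕ), |c k| < e k) ∧
  ∀ e e' : ℕ → ℤ, Fr U N e → (∀ᶠ k in (U : Filter ℕ), e k ≤ e' k) → Fr U N e'

/-! ## Rows: levels -/

/-- **GLV** the levels (medium; from GSM). All parts by induction on `n` together (for products at level `n + 1` one needs sums at level `n`). (1) congruence: level 0 `Sm`. (2) `f = f * 2^0`: list `[(f, 0)]`, `D = 1`.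
(3) level 0 as (2); `n + 1`: the exponents by induction. (4) `D f = sv l`, `D' g = sv l'`: `D D' (f + g) = sv` of the list with coefficients `D' c` and `D c'`; the same for `-`. Product: `D D' f g = ∑ c c' 2^(e.toNat + e'.toNat)`; eventually `0 ≤ e` or eventually `e < 0` (ultrafilter), in the second
case replace `(c, e)` by `(c, 0)` (`2^(e.toNat) = 1`), so one may assume that all exponents are `≥ 0` eventually, then `e.toNat + e'.toNat = (e + e').toNat`. (5) level 0: `|f| ≤ |D f|` (GSM (3)); `n + 1`: multiply the `D`s. (6) `c = 0`: the value is `0`. `c > 0`: `f % c` takes finitely many values, so it is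
eventually a constant `r` (`Ultrafilter`: `Ultrafilter.eventually_exists_mem_iff` / `Ultrafilter.finite_biUnion_mem_iff` or induction); `c * (f / c) = f - r`, (4), (5). (7) list `[(1, f)]`. -/
def GLV_stmt : Prop := ∀ (U : Ultrafilter ℕ) (N : ℕ → ℕ), Tendsto N (U : Filter ℕ) atTop → ∀ n : ℕ,
  (∀ f g, Lv U N n f → (∀ᶠ k in (U : Filter ℕ), f k = g k) → Lv U N n g) ∧
  (∀ f, Sm U N f → Lv U N n f) ∧
  (∀ f, Lv U N n f → Lv U N (n + 1) f) ∧
  (∀ f g, Lv U N n f → Lv U N n g → Lv U N n (fun k => f k + g k) ∧ Lv U N n (fun k => f k - g k) ∧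
    Lv U N n (fun k => f k * g k)) ∧
  (∀ (D : ℕ) (f : ℕ → ℤ), 0 < D → Lv U N n (fun k => (D : ℤ) * f k) → Lv U N n f) ∧
  (∀ (c : ℕ) (f : ℕ → ℤ), Lv U N n f → Lv U N n (fun k => f k / (c : ℤ))) ∧
  ∀ f, Lv U N n f → Lv U N (n + 1) (fun k => 2 ^ (f k).toNat)

/-- **GSH** shifts (medium; from GSM, GNG, GLV). Split `l` into the terms with `Fr (x.2 - E)` (list `h`, in Lean `l.filter` with classical decidability, or induction on `l`) and the others. `l'` = the terms of `h` with exponents `x.2 - E`, `c' = D (f / 2^E) - sv l'`. To show: `c'` is small. Eventually for `x ∈ h` `x.2 ≥ E ≥ 0`, so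
`sv h = 2^E sv l'`. For the other terms `x`: `x.2 - E` is negligible or `Fr (E - x.2)` (GNG trichotomy), so in any case there is a small `q_x ≥ 1` with `2^(x.2.toNat) ≤ q_x 2^E` (`q_x = 2^((x.2 - E).toNat)` resp. `1`). So `|B| ≤ b 2^E`, `B = c + sv (others)`, `b` small, and with `r = f % 2^E`:
`2^E (D (f / 2^E) - sv l') = B - D r`, `|c'| ≤ b + D`. -/
def GSH_stmt : Prop := ∀ (U : Ultrafilter ℕ) (N : ℕ → ℕ), Tendsto N (U : Filter ℕ) atTop →
  ∀ (n D : ℕ) (c : ℕ → ℤ) (l : List ((ℕ → ℤ) × (ℕ → ℤ))) (f E : ℕ → ℤ), St U N n D c l f → Lv U N n E →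
    (∀ᶠ k in (U : Filter ℕ), 0 ≤ E k) →
    ∃ (c' : ℕ → ℤ) (l' : List ((ℕ → ℤ) × (ℕ → ℤ))), St U N n D c' l' (fun k => f k / 2 ^ (E k).toNat) ∧
      l'.length ≤ l.length ∧ ((∃ x ∈ l, ¬ Fr U N (fun k => x.2 k - E k)) → l'.length < l.length)

/-- **GNF** normal form (medium; from GSM, GNG, GLV). Insertion of a term into a normal form, induction on `l`; first the insertion lemma: for `x = (a, e)`, `a` small, `e` of level `n`, and a normal form `l` with small coefficients and exponents of level `n` there are a small `c'` and a normal form `l'`, exponents of `l'` among `e` and those of `l`, with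
`a 2^(e.toNat) + sv l = c' + sv l'` eventually. If `a = 0` eventually: `l`. If `e` is negligible or `Fr (-e)`: `c' = a 2^(e.toNat)` is small, `l' = l`. Otherwise `Fr e`; induction on `l = y :: m`; trichotomy for `e - y.2`: negligible: eventually `e ≤ y.2` or eventually `y.2 ≤ e`; first case: replace `y` by
`(a + y.1 2^((y.2 - e).toNat), e)`, the coefficient is small; if it is eventually zero drop it; it stays far above `m` (GNG (5)). The other case: `(y.1 + a 2^((e - y.2).toNat), y.2)`. `Fr (e - y.2)`: `x :: y :: m` (transitivity GNG (6)). `Fr (y.2 - e)`: insert `x` into `m`, put `y` in front. -/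
def GNF_stmt : Prop := ∀ (U : Ultrafilter ℕ) (N : ℕ → ℕ), Tendsto N (U : Filter ℕ) atTop →
  ∀ (n D : ℕ) (c : ℕ → ℤ) (l : List ((ℕ → ℤ) × (ℕ → ℤ))) (f : ℕ → ℤ), St U N n D c l f →
    ∃ (c' : ℕ → ℤ) (l' : List ((ℕ → ℤ) × (ℕ → ℤ))), St U N n D c' l' f ∧ NFm U N l'

/-- **GLE** number of binary digits (medium; from GSM, GNG, GLV, GNF). `f` of level `n + 1` has a representation `St` (`c = 0`), GNF. `l' = []`: `D f = c'` is small, so `f` is small and `len f` is negligible (GSM (5)), so small, GLV (2). `l' = x :: m`: eventually `2 |c' + sv m| ≤ 2^(x.2)` (each term `y` of `m`: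
`C |y.1| 2^(y.2.toNat) < 2^(x.2.toNat)` by GSM (6) for `x.2 - y.2`; induction on `m`), `|x.1| ≥ 1`; so `2^(x.2) ≤ 2 D |f| ≤ 4 |x.1| 2^(x.2)`: `len f - x.2` is negligible (`2^(len - 1) ≤ |f| < 2^len`; `len x.1` is negligible). So `len f = x.2 + (negligible)`, GLV (4). -/
def GLE_stmt : Prop := ∀ (U : Ultrafilter ℕ) (N : ℕ → ℕ), Tendsto N (U : Filter ℕ) atTop →
  ∀ (n : ℕ) (f : ℕ → ℤ), Lv U N (n + 1) f → Lv U N n (fun k => len (f k))

/-! ## Rows: digits -/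

/-- **GMN** a smallest exponent (short; only the ultrafilter). Induction on `l`; eventually `e ≤ e'` or eventually `e' ≤ e`. -/
def GMN_stmt : Prop := ∀ (U : Ultrafilter ℕ) (l : List ((ℕ → ℤ) × (ℕ → ℤ))), l ≠ [] →
  ∃ x ∈ l, ∀ y ∈ l, ∀ᶠ k in (U : Filter ℕ), x.2 k ≤ y.2 k

/-- **GLO** low digits (medium; `EPR_stmt`, `BTM_stmt` of UT). `D = 2^C b`, `b` odd. Put `r k = f k % 2^(ℓ k)` and `τ k = (c k - D * r k) / 2^(ℓ k + C)`; `|c| < 2^ℓ`, `0 ≤ r < 2^ℓ`, so `|τ| ≤ b + 2`: eventually `τ` is a constant `τ₀` (ultrafilter, finitely many values). `s` from EPR for `τ₀`, `b`. Let `E` be given; if eventually `E < ℓ + 1` there is nothing to prove;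
otherwise eventually `ℓ < E`. `D f = c + sv l` and `2^(E + C)` divides `sv l`: so `2^C b f = c` modulo `2^(E + C)`, `f = 2^ℓ f₁ + r` (`f₁ = f / 2^ℓ`): `c - D r = 2^C b 2^ℓ f₁` modulo `2^(E+C)`, so `2^(ℓ + C)` divides `c - D r`, `c - D r = 2^(ℓ + C) τ₀`, `b f₁ = τ₀` modulo `2^(E - ℓ)`. With EPR (`L = E - ℓ`):
`2^L` divides `b (f₁ - val s L)`, `b` is odd: BTM gives `f₁.testBit i = s i` for `i < L`, and `f.testBit (ℓ + i) = f₁.testBit i` (`f₁ = f >>> ℓ`, `Int.testBit_shiftRight`, `Int.shiftRight_eq_div_pow`). -/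
def GLO_stmt : Prop := ∀ (U : Ultrafilter ℕ) (N : ℕ → ℕ), Tendsto N (U : Filter ℕ) atTop →
  ∀ (n D : ℕ) (c : ℕ → ℤ) (l : List ((ℕ → ℤ) × (ℕ → ℤ))) (f : ℕ → ℤ), St U N n D c l f →
    ∃ C : ℕ, ∀ ℓ : ℕ → ℕ, (∀ᶠ k in (U : Filter ℕ), |c k| < 2 ^ ℓ k) →
      ∃ s : ℕ → Bool, EP s ∧ ∀ E : ℕ → ℤ, (∀ x ∈ l, ∀ᶠ k in (U : Filter ℕ), E k + C ≤ x.2 k) →
        ∀ᶠ k in (U : Filter ℕ), ∀ i : ℕ, (ℓ k : ℤ) + i < E k → (f k).testBit (ℓ k + i) = s i

/-- **GVC** value and number of the digits up to `E` (medium; from GSM, GNG, GLV, `EPC_stmt` of UT). EPC for `s`: period `p₀`; `L = E.toNat - ℓ`; `L % p₀` is eventually a constant `ρ`; EPC gives rational `a, b, c, d` and `A`. If eventually `E ≤ ℓ + A`: `0 ≤ val ≤ 2^(E.toNat)` and `0 ≤ cnt ≤ E.toNat` are small (`E.toNat ≤ ℓ + A` is negligible,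
GSM (4)). Otherwise eventually `E.toNat = ℓ + L`, `L ≥ A`: `val (p k) (ℓ + L) = val (p k) ℓ + 2^ℓ val s L` (`Finset.sum_range_add`), `val s L = a + b 2^L`, so with a common denominator `D` of `a, b`: `D val = D val (p k) ℓ + (D a) 2^ℓ + (D b) 2^E`; `0 ≤ val (p k) ℓ < 2^ℓ` is small, `2^ℓ` is small, `2^E` is of level `n + 1`: GLV (4), (5), (7).
`cnt (p k) (ℓ + L) = cnt (p k) ℓ + cnt s L`, `cnt s L = c + d (E - ℓ)`. -/
def GVC_stmt : Prop := ∀ (U : Ultrafilter ℕ) (N : ℕ → ℕ), Tendsto N (U : Filter ℕ) atTop →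
  ∀ (n : ℕ) (p : ℕ → ℕ → Bool) (ℓ : ℕ → ℕ) (s : ℕ → Bool) (E : ℕ → ℤ), EP s → Ng U N (fun k => (ℓ k : ℤ)) →
    Lv U N n E → (∀ᶠ k in (U : Filter ℕ), ∀ i : ℕ, (ℓ k : ℤ) + i < E k → p k (ℓ k + i) = s i) →
    Lv U N (n + 1) (fun k => val (p k) (E k).toNat) ∧ Lv U N n (fun k => cnt (p k) (E k).toNat)

/-- **GBS** bitwise operations on small functions are small (short; `BWS_stmt` of UT). BWS with `L` = the larger of the lengths: `m / 2^L` and `n / 2^L` are `0` or `-1`, so `Int.bitwise β m n = val .. L + 2^L (0 or -1)`, absolute value `≤ 2^L ≤ 2 max(|m|,|n|) + 1`. So for ALL `m n`: `|Int.bitwise β m n| ≤ 2 (|m| + |n|) + 2`. -/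
def GBS_stmt : Prop := ∀ (β : Bool → Bool → Bool) (m n : ℤ), |Int.bitwise β m n| ≤ 2 * (|m| + |n|) + 2

/-- **GBT** bitwise operations (medium; from GSM, GNG, GLV, GSH, GMN, GLO, GVC, GBS, `BWS_stmt` of UT). `f`, `g` of level `n + 1` have representations `St n D c l f`, `St n D' c' l' g`; induction on `l.length + l'.length` (for all `f, g, D, ..`). Both empty: `f`, `g` are small (`|f| ≤ |D f|`), GBS. Otherwise GMN for `l ++ l'`: `x` with the smallest exponent. `C`, `C'` from GLO,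
`E = x.2 - max C C'`. If NOT `Fr x.2`: `x.2` negligible or `Fr (-x.2)`; use GSH with the exponent `0` (`f / 2^0 = f`) for the function which has `x` in its list: its new list is shorter, induction. If `Fr x.2`: eventually `0 ≤ E`, `E` in `Lv n`. `ℓ` = `len c + len c'` (as a natural number; `|c| < 2^(len c)`; negligible by GSM (5), GNG). GLO gives `s, s'`; BWS with `L = E.toNat`:
the low part is `val (fun i => β (f.testBit i) (g.testBit i)) E.toNat`, by GVC with the sequence `fun i => β (s i) (s' i)` (which is `EP`: period the product) in `Lv (n + 1)`. High part: `f / 2^E`, `g / 2^E` have representations (GSH) of total length smaller (`x.2 - E` is constant, not `Fr`): induction; times `2^E`: GLV (4), (7). -/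
def GBT_stmt : Prop := ∀ (U : Ultrafilter ℕ) (N : ℕ → ℕ), Tendsto N (U : Filter ℕ) atTop →
  ∀ (n : ℕ) (β : Bool → Bool → Bool) (f g : ℕ → ℤ), Lv U N (n + 1) f → Lv U N (n + 1) g →
    Lv U N (n + 1) (fun k => Int.bitwise β (f k) (g k))

/-- **GPO** digit sums (medium; from GSM, GNG, GLV, GSH, GMN, GLO, GVC, `PSP_stmt` of UT). `pop (-m) = pop m`, and eventually `0 ≤ f` or eventually `f ≤ 0`, so let `f ≥ 0`. Induction on the length of a representation as in GBT with `PSP`: `pop f = cnt (f.testBit) E.toNat + pop (f / 2^E)`, `cnt` in `Lv n` by GVC, so in `Lv (n + 1)`. Empty list: `f` is small, `0 ≤ pop f ≤ len f`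
(the digits are `≤ 1`) is negligible, so small. -/
def GPO_stmt : Prop := ∀ (U : Ultrafilter ℕ) (N : ℕ → ℕ), Tendsto N (U : Filter ℕ) atTop →
  ∀ (n : ℕ) (f : ℕ → ℤ), Lv U N (n + 1) f → Lv U N (n + 1) (fun k => pop (f k))

/-! ## Rows: the language -/

/-- **GTM** terms (medium; from GSM, GLV, GSH, GLE, GBT, GPO). First: for every function symbol `F` and `g i` in `Lv (j + 1)` (a common `j`, GLV (3)) the function `fnInt F (g · k)` is in some level: `cases F`; `ite`: eventually `0 ≤ g 0` or eventually not; `shift`: eventually `0 ≤ y` (GSH for a representation of `x` in `Lv (j + 2)`, `y` in `Lv (j + 1)`) or eventually `y < 0` (`x / 1`); `quot`: GLV (6).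
Then induction on `t` (`Term.realize`), variables are small. -/
def GTM_stmt : Prop := ∀ (U : Ultrafilter ℕ) (N : ℕ → ℕ), Tendsto N (U : Filter ℕ) atTop →
  ∀ {β : Type} (v : β → ℕ → ℤ), (∀ b, Sm U N (v b)) → ∀ t : Lb.Term β,
    ∃ j : ℕ, Lv U N (j + 1) (fun k => t.realize fun b => v b k)

/-! ## Rows: Fermat numbers -/

/-- **GPF** (short; Mathlib). A prime dividing `2^(2^m) + 1` is larger than `2^m` (it is `1` modulo `2^(m+1)`; `Nat.prime_dvd_fermatNumber...`, or `orderOf`: `2` has order `2^(m+1)` in `(ZMod p)ˣ`, `orderOf_dvd_card_sub_one`). So if `F = 2^(2^m) + 1` divides `D * S`, `0 < D ≤ 2^m`, then `F` divides `S`. -/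
def GPF_stmt : Prop := ∀ (m D : ℕ) (S : ℤ), 0 < D → D ≤ 2 ^ m → (2 : ℤ) ^ (2 ^ m) + 1 ∣ D * S →
  (2 : ℤ) ^ (2 ^ m) + 1 ∣ S

/-- **GEN** the inequality (medium; from GPF, GSM, GLV and `Pool.Agent.helper8.SF.main`). By GLV (3) `n = n' + 1`: `D f = sv l` eventually, `w = l.length`. Choose a natural number `M ≥ 4 / δ`, `M ≥ 1`. If the claim fails, then (ultrafilter) for almost all `k`: `F` does not divide `f k` and `d = gcd (f k) F > F^δ`. Eventually `D ≤ 2^(m k)`, so `F` does not divide `D f k = sv l k` (GPF); `d` divides `F`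
and `sv l k = ∑ (i : Fin w), c_i 2^(a_i)`. `main` (`s = Finset.univ`): `d^M ≤ (∑ |c_i|)^(M^w) * 4^(2^m)`. The function `∑ |c_i|` is small (GSM (2), (3)), so `(∑ |c_i|)^(M^w) ≤ 2^N`, `N = 2^m`. But `d^M > F^(δ M) ≥ F^4 > 2^(4 N)`, and `2^N 4^N = 2^(3 N)`: contradiction. -/
def GEN_stmt : Prop := ∀ (U : Ultrafilter ℕ) (m : ℕ → ℕ), Tendsto m (U : Filter ℕ) atTop →
  ∀ (n : ℕ) (f : ℕ → ℤ), Lv U (fun k => 2 ^ m k) n f → ∀ δ : ℝ, 0 < δ →
    ∀ᶠ k in (U : Filter ℕ), (2 : ℤ) ^ (2 ^ m k) + 1 ∣ f k ∨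
      ((Int.gcd (f k) (2 ^ (2 ^ m k) + 1) : ℕ) : ℝ) ≤ ((2 : ℝ) ^ (2 ^ m k) + 1) ^ δ

/-- **GCP** the theorem (short-medium; from GTM, GEN). By contradiction (`push Not`): for every `k` (with `ε = 1/(k+1)`, `m₀ = k`) choose `m k ≥ k` and `v k`. `U = hyperfilter ℕ` (`≤ atTop`), `m → ∞`. `v · i` is small for `N = 2^m`: `|v|^j ≤ 2^(j N / (k+1)) ≤ 2^N` for `k ≥ j` (real powers: `Real.rpow_natCast`, `Real.rpow_mul`; cast to `ℤ`). GTM for `t`, GEN. -/
def GCP_stmt : Prop := ∀ (n : ℕ) (t : Lb.Term (Fin n)) (δ : ℝ), 0 < δ → ∃ (ε : ℝ) (m₀ : ℕ), 0 < ε ∧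
  ∀ (m : ℕ) (v : Fin n → ℤ), m₀ ≤ m → (∀ i, |(v i : ℝ)| ≤ (2 : ℝ) ^ (ε * 2 ^ m)) →
    (2 : ℤ) ^ (2 ^ m) + 1 ∣ t.realize v ∨
      ((Int.gcd (t.realize v) (2 ^ (2 ^ m) + 1) : ℕ) : ℝ) ≤ ((2 : ℝ) ^ (2 ^ m) + 1) ^ δ

/-- **GHB** Herbrand's theorem for the two sentences (medium; adapt `Pool/Agent/helper29/NF/FOM.lean`). `U = hyperfilter ℕ`, `P` = ultrapower of `ℤ`, `x0` = class of `fun H => (H : ℤ)`, `S` = closure of `x0`; `S ⊨ UnivTh` (universal sentences), so the sentence holds in `S`; instantiate the first variable by `x0`: `n, x, y ∈ S` are values of terms at `x0`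
(`Substructure.mem_closure_iff_exists_term`; relabel the variable `({x0} : Set P)` to `Fin 1`); the matrix is quantifier free, so it holds in `P`, so for `U`-almost all `H`, so for infinitely many `H`. -/
def GHB_stmt : Prop :=
  (UnivTh ⊨ᵇ infinitelyManyComposite → ∃ a x y : Lb.Term (Fin 1), ∃ᶠ H : ℕ in atTop,
    (H : ℤ) < a.realize (fun _ => (H : ℤ)) ∧ 1 < x.realize (fun _ => (H : ℤ)) ∧ 1 < y.realize (fun _ => (H : ℤ)) ∧
    x.realize (fun _ => (H : ℤ)) * y.realize (fun _ => (H : ℤ)) =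
      2 ^ ((2 : ℤ) ^ (a.realize (fun _ => (H : ℤ))).toNat).toNat + 1) ∧
  (UnivTh ⊨ᵇ infinitelyManyCompositeNN → ∃ a x y : Lb.Term (Fin 1), ∃ᶠ H : ℕ in atTop,
    (H : ℤ) < a.realize (fun _ => (H : ℤ)) ∧ 1 < x.realize (fun _ => (H : ℤ)) ∧ 1 < y.realize (fun _ => (H : ℤ)) ∧
    x.realize (fun _ => (H : ℤ)) * y.realize (fun _ => (H : ℤ)) =
      2 ^ ((2 : ℤ) ^ (a.realize (fun _ => (H : ℤ)) + 2 ^ (a.realize (fun _ => (H : ℤ))).toNat).toNat).toNat + 1)

/-- **GFI** unprovability (short-medium; from GCP, GHB). GHB: `a, x, y`. GCP for `x` and `y` with `δ = 1/3`: `ε, m₀`. Take `H` large with the properties; `m = a(H).toNat > H` (resp. `a(H).toNat + 2^(a(H).toNat)`); `H ≤ m ≤ 2^(ε 2^m)` for large `m`. `x y = F`, `x, y > 1`, so `F` does not divide `x` (`0 < x < F`), `gcd x F = x ≤ F^(1/3)`, also `y ≤ F^(1/3)`: `F ≤ F^(2/3)`,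
a contradiction. -/
def GFI_stmt : Prop := ¬ (UnivTh ⊨ᵇ infinitelyManyComposite) ∧ ¬ (UnivTh ⊨ᵇ infinitelyManyCompositeNN)

end Pool.Agent.GD
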