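import Pool.Agent.helper97.GD.Spec

/-!
# Project GD, block B: bounded programs with divisions cannot find a balanced factor of a Fermat number

Page: /team-store/GDB_proof_helper97.md. Rows `gd:X`: prove `X_stmt` in `Pool/Agent/<seat>/GD/X.lean`, `import Pool.Agent.helper97.GD.SpecB`,
namespace `Pool.Agent.GD`, auxiliary lemmas prefixed `X_`. Notions of `Spec.lean`: `Sm` small, `Ng` negligible, `Fr` far, `sv`, `len`.
The class `Lw` is the class `Lv` of block A with SMALL (not only constant) denominators; so it is closed under floor division by small functions.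
-/

set_option autoImplicit false

open Filter

namespace Pool.Agent.GD

/-! ## Definitions -/

/-- the levels with small denominators -/
def Lw (U : Ultrafilter ℕ) (N : ℕ → ℕ) : ℕ → (ℕ → ℤ) → Prop
  | 0, f => Sm U N f
  | n + 1, f => ∃ (d : ℕ → ℤ) (l : List ((ℕ → ℤ) × (ℕ → ℤ))), Sm U N d ∧ (∀ᶠ k in (U : Filter ℕ), d k ≠ 0) ∧
      (∀ x ∈ l, Sm U N x.1 ∧ Lw U N n x.2) ∧ ∀ᶠ k in (U : Filter ℕ), d k * f k = sv l k

/-- `z` is the result of one operation applied to members `x`, `y` of `S` (`F = 2 ^ (2 ^ m) + 1`): `x + y`, `x - y`, `x * y`,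
`2 ^ x`, the number of binary digits of `|x|`, the floor of `x / 2 ^ y`, the greatest common divisor of `x` and `F`, and the floor of `x / y`
provided that `|y| ≤ 2 ^ (2 ^ m / q)` or `|x| ≤ F ^ s` -/
def Op (m q s : ℕ) (S : Set ℤ) (z : ℤ) : Prop :=
  ∃ x ∈ S, ∃ y ∈ S, z = x + y ∨ z = x - y ∨ z = x * y ∨ z = 2 ^ x.toNat ∨ z = (Nat.digits 2 x.natAbs).length ∨
    z = x / 2 ^ y.toNat ∨ z = Int.gcd x (2 ^ (2 ^ m) + 1) ∨
    ((|y| ^ q ≤ 2 ^ (2 ^ m) ∨ |x| ≤ (2 ^ (2 ^ m) + 1) ^ s) ∧ z = x / y)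

/-- the numbers obtained in `t` rounds from the numbers with at most `2 ^ m / q` bits -/
def Cx (m q s : ℕ) : ℕ → Set ℤ
  | 0 => {z | |z| ^ q ≤ 2 ^ (2 ^ m)}
  | t + 1 => {z | z ∈ Cx m q s t ∨ Op m q s (Cx m q s t) z}

/-! ## Rows -/

/-- **BLV** the levels (medium; from GSM). Same proof as GLV (`Pool/Agent/helper31/GD/GLV.lean`), with small functions `d` in place of constants `D`. (1) congruence. (2) small functions. (3) `Lw n ⊆ Lw (n + 1)`. (4) sums, differences, products (common denominator `d d'`; exponents may be assumed `≥ 0`). (5) `d f ∈ Lw n`, `d` small, not zero: `f ∈ Lw n`.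
(6) floor division by a small `c`: eventually `c = 0` (the value is `0`) or eventually `c ≠ 0`: `c (f / c) = f - f % c`, `|f % c| ≤ |c|` (`Int.emod_lt`, `Int.emod_nonneg`), (4), (5). (7) powers of two. -/
def BLV_stmt : Prop := ∀ (U : Ultrafilter ℕ) (N : ℕ → ℕ), Tendsto N (U : Filter ℕ) atTop → ∀ n : ℕ,
  (∀ f g, Lw U N n f → (∀ᶠ k in (U : Filter ℕ), f k = g k) → Lw U N n g) ∧
  (∀ f, Sm U N f → Lw U N n f) ∧
  (∀ f, Lw U N n f → Lw U N (n + 1) f) ∧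
  (∀ f g, Lw U N n f → Lw U N n g → Lw U N n (fun k => f k + g k) ∧ Lw U N n (fun k => f k - g k) ∧
    Lw U N n (fun k => f k * g k)) ∧
  (∀ d f : ℕ → ℤ, Sm U N d → (∀ᶠ k in (U : Filter ℕ), d k ≠ 0) → Lw U N n (fun k => d k * f k) → Lw U N n f) ∧
  (∀ c f : ℕ → ℤ, Sm U N c → Lw U N n f → Lw U N n (fun k => f k / c k)) ∧
  ∀ f, Lw U N n f → Lw U N (n + 1) (fun k => 2 ^ (f k).toNat)

/-- **BSH** shifts (short-medium; from GSM, GNG, BLV). Same proof as GSH (`Pool/Agent/helper97/GD/GSH.lean`), with a small `d` in place of `D`: `d f = sv l`; `l'` = the terms with `Fr (x.2 - E)`, exponents `x.2 - E`; `d (f / 2^E) - sv l'` is small. (`GSH_key` with `Lw` in place of `Lv`.) -/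
def BSH_stmt : Prop := ∀ (U : Ultrafilter ℕ) (N : ℕ → ℕ), Tendsto N (U : Filter ℕ) atTop → ∀ (n : ℕ) (f E : ℕ → ℤ),
  Lw U N (n + 1) f → Lw U N n E → (∀ᶠ k in (U : Filter ℕ), 0 ≤ E k) → Lw U N (n + 1) (fun k => f k / 2 ^ (E k).toNat)

/-- **BLT** leading term (medium; from GSM, GNG, BLV). `d f = sv l`. Strong induction on the length of `l` for: if the coefficients of `l` are small and its exponents in `Lw n` then `sv l` is small or there are `a, e, t` as below. Let `e₁` be the largest exponent (eventually `≤` is total, ultrafilter). If not `Fr e₁`: all exponents are negligible or eventually `≤ 0`, all terms are small,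
`sv l` is small. If `Fr e₁`: let `l = near ++ rest` up to order, near = the terms with `Ng (e₁ - x.2)`, `e` = the smallest exponent in near (`Fr e`), `a = ∑_near x.1 2^((x.2 - e).toNat)`, small. If eventually `a = 0` then `sv l = sv rest` eventually and `rest` is shorter: induction. Otherwise `t = sv rest`: for `x` in rest `Fr (e₁ - x.2)` (it is
not negligible, and `≥ 0`), so `Fr (e - x.2)`, and `C |x.1| 2^(x.2.toNat) 2^(N/j) ≤ 2^(e.toNat)` for some constant `j` (GSM (6): `Fr (e - x.2)` with constant `j'`: `(e - x.2) ≥ N/j'`, so half of it remains; `x.2 < 0`: use `Fr e`). Take the maximum of the `j`. `f` small: `|f| ≤ |d f|`. -/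
def BLT_stmt : Prop := ∀ (U : Ultrafilter ℕ) (N : ℕ → ℕ), Tendsto N (U : Filter ℕ) atTop → ∀ (n : ℕ) (f : ℕ → ℤ),
  Lw U N (n + 1) f → Sm U N f ∨ ∃ (d a e t : ℕ → ℤ) (j : ℕ), Sm U N d ∧ (∀ᶠ k in (U : Filter ℕ), d k ≠ 0) ∧ Sm U N a ∧
    (∀ᶠ k in (U : Filter ℕ), a k ≠ 0) ∧ Lw U N n e ∧ Fr U N e ∧ Lw U N (n + 1) t ∧ 0 < j ∧
    (∀ᶠ k in (U : Filter ℕ), d k * f k = a k * 2 ^ (e k).toNat + t k) ∧
    ∀ᶠ k in (U : Filter ℕ), |t k| * 2 ^ (N k / j) ≤ 2 ^ (e k).toNat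

/-- **BLN** number of digits (short-medium; from GSM, GNG, BLV, BLT). `f` small: `len f` is negligible, so small. Otherwise `d f = a 2^e + t`, `|t| ≤ 2^e / 2` eventually: `2^e ≤ 2 |d| |f|` and `|d f| ≤ 2 |a| 2^e`, so `len f - e` is negligible (`2^(len - 1) ≤ |f| < 2^len`, the lengths of `d`, `a` are negligible), `len f = e + (negligible)`. -/
def BLN_stmt : Prop := ∀ (U : Ultrafilter ℕ) (N : ℕ → ℕ), Tendsto N (U : Filter ℕ) atTop → ∀ (n : ℕ) (f : ℕ → ℤ),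
  Lw U N (n + 1) f → Lw U N n (fun k => len (f k))

/-- **BQT** divisions (medium; from GSM, GNG, BLV, BSH, BLT). `|x| ≤ 2^(s N)`; `y` is small: BLV (6). Otherwise BLT for `y`: `d y = a 2^e + t`, `|t| 2^(N/j) ≤ 2^e`. Let `w = a 2^e`, `K = (s + 2) * 2 * j` or larger (constant). `P = d x ∑_(i < K) w^(K-1-i) (-t)^i` is in `Lw (n + 1)` (BLV (4)); `(w + t) ∑_(i<K) w^(K-1-i) (-t)^i = w^K - (-t)^K`
(`Commute.geom_sum₂`, or induction), so `(d y) P = d x (w^K - (-t)^K)`. With `g = x / y`, `x = y g + r`, `|r| < |y|`: `w^K x - P y = (-t)^K x` (divide by `d`), so `|w^K g y - P y| ≤ |t|^K |x| + |w|^K |r|`, `|w^K g - P| ≤ |t|^K |x| + |w|^K` (`|y| ≥ 1`), and `|t|^K |x| ≤ 2^(K e) 2^(s N - K (N/j)) ≤ 2^(K e)`.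
With `E = K e`: `|2^E a^K g - P| ≤ (1 + |a|^K) 2^E`, so `a^K g - P / 2^E` is small, `P / 2^E` is in `Lw (n + 1)` (BSH), BLV (4), (5). -/
def BQT_stmt : Prop := ∀ (U : Ultrafilter ℕ) (N : ℕ → ℕ), Tendsto N (U : Filter ℕ) atTop → ∀ (n s : ℕ) (x y : ℕ → ℤ),
  Lw U N (n + 1) x → Lw U N (n + 1) y → (∀ᶠ k in (U : Filter ℕ), |x k| ≤ 2 ^ (s * N k)) →
    Lw U N (n + 1) (fun k => x k / y k)

/-- **BEN** the inequality (medium; from GSM, BLV and `Pool.Agent.helper8.SF.main`; compare `Pool/Agent/helper70/GD/GEN.lean`). By BLV (3) `n = n' + 1`: `D f = sv l`, `D` small, not zero. `g = gcd f F`. Eventually `F ∣ D f` or eventually not (ultrafilter). If `F ∣ D f`: `F / g` is coprime to `f / g` (if `g ≠ 0`; `F > 0`), so `F / g ∣ D`, `F / g ≤ |D|`,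
`(F / g)^d ≤ |D|^d ≤ 2^N ≤ F`. If not: `g ∣ sv l = ∑_(i : Fin w) c_i 2^(a_i)`, `main` with `M = 4 d`: `g^(4 d) ≤ (∑ |c_i|)^(M^w) 4^N ≤ 2^N 4^N = 2^(3 N)`; if `g^d > F ≥ 2^N` then `g^(4d) > 2^(4 N)`: contradiction. -/
def BEN_stmt : Prop := ∀ (U : Ultrafilter ℕ) (m : ℕ → ℕ), Tendsto m (U : Filter ℕ) atTop →
  ∀ (n : ℕ) (f : ℕ → ℤ), Lw U (fun k => 2 ^ m k) n f → ∀ d : ℕ, 0 < d → ∀ᶠ k in (U : Filter ℕ),
    (Int.gcd (f k) (2 ^ (2 ^ m k) + 1)) ^ d ≤ 2 ^ (2 ^ m k) + 1 ∨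
    ((2 ^ (2 ^ m k) + 1) / Int.gcd (f k) (2 ^ (2 ^ m k) + 1)) ^ d ≤ 2 ^ (2 ^ m k) + 1

/-- **BGC** greatest common divisors with `F` (short-medium; from GSM, BLV, BEN). `N = 2^m`. If for every `d` eventually `g^d ≤ F` (`g = gcd f F`), then `g` is small (`g^(2 j) ≤ F ≤ 2^(N+1) ≤ 2^(2 N)`). Otherwise there is `d₀` such that eventually `F < g^(d₀)` (ultrafilter), so for all `d` (use BEN for `max d d₀`, `F/g ≥ 1`) eventually `(F / g)^d ≤ F`: `c = F / g` is small, `c ≠ 0`, `c g = F`,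
and `F = 2^(2^m) + 1` is in `Lw` (`2^m` is small: `(2^m)^j ≤ 2^(2^m)` eventually), BLV (5). -/
def BGC_stmt : Prop := ∀ (U : Ultrafilter ℕ) (m : ℕ → ℕ), Tendsto m (U : Filter ℕ) atTop →
  ∀ (n : ℕ) (f : ℕ → ℤ), Lw U (fun k => 2 ^ m k) (n + 1) f →
    Lw U (fun k => 2 ^ m k) (n + 1) (fun k => (Int.gcd (f k) (2 ^ (2 ^ m k) + 1) : ℕ))

/-- **BCP** the theorem (medium; from BLV, BSH, BLN, BQT, BEN, BGC). By contradiction: for every `k` there are `m k ≥ k` and `z k ∈ Cx (m k) k s s` with `F < gcd^d` and `F < (F / gcd)^d`. `U = hyperfilter ℕ`. Claim: for every `t` and every `z` with eventually `z k ∈ Cx (m k) k s t` there is `n` with `Lw n z`. `t = 0`: `|z|^j ≤ max 1 |z|^k ≤ 2^N` for `k ≥ j`: small.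
`t + 1`: eventually `z ∈ Cx t`, or eventually one of the eight cases of `Op` (ultrafilter) with functions `x`, `y` (choice); induction gives levels for `x` and `y`, a common level by BLV (3). The cases: BLV (4), (7), BLN, BSH (`y ≥ 0` eventually, or `2^0 = 1`), BGC, and `x / y`: `y` small (as `t = 0`; BLV (6)), or BQT (`F^s ≤ 2^((N+1) s) ≤ 2^(2 s N)`). BEN. -/
def BCP_stmt : Prop := ∀ s d : ℕ, 0 < d → ∃ q m₀ : ℕ, 0 < q ∧ ∀ m : ℕ, m₀ ≤ m → ∀ z ∈ Cx m q s s,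
  (Int.gcd z (2 ^ (2 ^ m) + 1)) ^ d ≤ 2 ^ (2 ^ m) + 1 ∨
    ((2 ^ (2 ^ m) + 1) / Int.gcd z (2 ^ (2 ^ m) + 1)) ^ d ≤ 2 ^ (2 ^ m) + 1

end Pool.Agent.GD
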